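import Pool.Agent.helper81.CI.Spec
import Pool.Agent.helper62.CL.GAU

/-!
# Project ci (MP_447e26_gt): GAI, two Gaussian integrals

Both are obtained from the integrals of `Pool.Agent.CL.GAU_one` (with `t/2` in place of `t`) and from an antiderivative.
-/

set_option autoImplicit false

open MeasureTheory Set Filter Topology
open scoped ENNReal
open Pool.Agent.helper81.CW Pool.Agent.CL

noncomputable section

namespace Pool.Agent.CI

theorem GAI_one (t : ℝ) (ht : 0 < t) :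
    ∫⁻ u in Ioi (0 : ℝ), ENNReal.ofReal (t * u * Real.exp (t / 2 - t * u ^ 2 / 2)) *
      ENNReal.ofReal (Real.exp (t * (u - 1))) ≤ ENNReal.ofReal (2 + √(2 * Real.pi * t)) := by
  have h := GAU_one (t / 2) (by positivity)
  have e1 : (2 : ℝ) * √(Real.pi * (t / 2)) = √(2 * Real.pi * t) := by
    have h4 : (2 : ℝ) = √(2 ^ 2) := (Real.sqrt_sq (by norm_num)).symm
    conv_lhs => rw [h4]
    rw [← Real.sqrt_mul (by positivity)]
    congr 1
    ring
  rw [e1] at h
  refine le_trans (le_of_eq ?_) h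
  refine setLIntegral_congr_fun measurableSet_Ioi fun u hu => ?_
  have hu0 : (0 : ℝ) < u := hu
  have h5 : 0 ≤ t * u * Real.exp (t / 2 - t * u ^ 2 / 2) := by positivity
  change ENNReal.ofReal (t * u * Real.exp (t / 2 - t * u ^ 2 / 2)) *
      ENNReal.ofReal (Real.exp (t * (u - 1))) = _
  rw [← ENNReal.ofReal_mul h5]
  congr 1
  have a1 : t / 2 - t * u ^ 2 / 2 = t / 2 * (1 - u ^ 2) := by ring
  have a2 : t * (u - 1) = 2 * (t / 2) * (u - 1) := by ring
  rw [a1, a2]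
  ring

theorem GAI_two : ∫⁻ u in Ioi (0 : ℝ),
    ENNReal.ofReal (1 * u * Real.exp (1 / 2 - 1 * u ^ 2 / 2)) ≤ ENNReal.ofReal 1.7 := by
  have h1 : ∀ u ∈ Ici (0 : ℝ), HasDerivAt (fun u : ℝ => -Real.exp (1 / 2 - 1 * u ^ 2 / 2))
      (1 * u * Real.exp (1 / 2 - 1 * u ^ 2 / 2)) u := by
    intro u _
    have h2 : HasDerivAt (fun u : ℝ => 1 / 2 - 1 * u ^ 2 / 2) (0 - 1 * (2 * u ^ 1 * 1) / 2) u :=
      (hasDerivAt_const u (1 / 2 : ℝ)).sub ((((hasDerivAt_id u).pow 2).const_mul 1).div_const 2)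
    have h3 := h2.exp.neg
    refine h3.congr_deriv ?_
    ring
  have h2 : ∀ u ∈ Ioi (0 : ℝ), 0 ≤ 1 * u * Real.exp (1 / 2 - 1 * u ^ 2 / 2) := by
    intro u hu
    have h6 : (0 : ℝ) < u := hu
    positivity
  have h3 : Tendsto (fun u : ℝ => -Real.exp (1 / 2 - 1 * u ^ 2 / 2)) atTop (𝓝 0) := by
    have a0 : Tendsto (fun u : ℝ => (1 / 2 : ℝ) * u ^ 2) atTop atTop :=
      (tendsto_pow_atTop two_ne_zero).const_mul_atTop (by norm_num)
    have a1 : Tendsto (fun u : ℝ => (1 / 2 : ℝ) * u ^ 2 + (-(1 / 2))) atTop atTop :=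
      tendsto_atTop_add_const_right _ _ a0
    have a2 := (Real.tendsto_exp_neg_atTop_nhds_zero.comp a1).neg
    rw [neg_zero] at a2
    refine a2.congr fun u => ?_
    rw [Function.comp_apply]
    congr 2
    ring
  have hi := integrableOn_Ioi_deriv_of_nonneg' h1 h2 h3
  rw [← ofReal_integral_eq_lintegral_ofReal hi ((ae_restrict_mem measurableSet_Ioi).mono h2)]
  refine ENNReal.ofReal_le_ofReal ?_
  rw [integral_Ioi_of_hasDerivAt_of_nonneg' h1 h2 h3]
  have h4 : Real.exp (1 / 2 - 1 * 0 ^ 2 / 2) = Real.exp (1 / 2) := by norm_num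
  rw [h4]
  have h5 : Real.exp (1 / 2) * Real.exp (1 / 2) = Real.exp 1 := by
    rw [← Real.exp_add]
    norm_num
  have h6 := Real.exp_one_lt_d9
  have h7 : 0 < Real.exp (1 / 2) := Real.exp_pos _
  nlinarith

/-- **GAI**. -/
theorem GAI : GAI_stmt := ⟨GAI_one, GAI_two⟩

end Pool.Agent.CI
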